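import Mathlib
import Pool.Agent.KS6_66.WA.Defs
import Pool.Agent.KS6_66.WA.Basin
import Pool.Agent.KS6_66.WA.Area
import Pool.Agent.KS6_66.WA.NMain

set_option autoImplicit false

/-!
# Wild attractors of real Henon maps: which Jacobians and which degrees

The maps are `(x, y) ↦ (p(x) - b y, x)`; `b` is the Jacobian. The definitions (`henon`, `omega`,
`basin`, `IsTransitiveSet`, `IsCantorSet`, `IsWildAttractor`) are those of the problem; they are in
`Pool.Agent.KS6_66.WA.Defs`.

* For `0 < b < 1` there are examples of every degree `d ≥ 3`: a sup-norm contraction argument codes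
  the orbits of a horseshoe which has the saddle-node fixed point `0` at its corner, for
  `p(x) = x (1 - x) (1 + b + 24 x + x ^ m / (m + 1))`.
* For `-1 < b < 0` the sup-norm argument is only compatible with neutral cycles of period `4 k` along
  which the neutral direction has the signs `+ + - -`. The polynomials
  `(1 - b) ((14175 x - 4169 x ^ 3 + 373 x ^ 5 - 11 x ^ 7) / 3456 + ε x ^ m (x² - 1)² (x² - 9)²)` have
  such a 4-cycle, `-1 → -3 → 1 → 3 → -1`, at the corner of a transitive set coded by a subshift of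
  finite type with three symbols.
* For `|b| > 1` the basin of every compact set is a null set, and for `|b| = 1` a compact invariant
  set attracts only a null set of points outside itself (Poincare recurrence).
-/

namespace Pool.Agent.Results.MP_3dbc4a_an.AllJacobians

open Set MeasureTheory Pool.Agent.KS6_66.WA

/-- The Henon map `(x, y) ↦ (p(x) - b y, x)` has an infinite strictly decreasing sequence of wild
attractors, each of which is itself transitive, and the basins of all of them contain one and the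
same nonempty open set. -/
def HasNestedWildAttractors (p : Polynomial ℝ) (b : ℝ) : Prop :=
  ∃ (Λ : ℕ → Set (ℝ × ℝ)) (U : Set (ℝ × ℝ)), IsOpen U ∧ U.Nonempty ∧
    ∀ N, IsWildAttractor (henon p b) (Λ N) ∧ IsTransitiveSet (henon p b) (Λ N) ∧
      Λ (N + 1) ⊂ Λ N ∧ U ⊆ basin (henon p b) (Λ N)

/-- **Wild attractors of real Henon maps.**
1. For `b ≠ 0`, `|b| ≠ 1` some Henon map `(x, y) ↦ (p(x) - b y, x)` with `deg p ≥ 2` has a wild
   attractor if and only if `|b| < 1`.
2. For `0 < b < 1` and every `d ≥ 3` there is such a map with `deg p = d` and with an infinite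
   strictly decreasing sequence of transitive wild attractors attracting a common open set.
3. The same for `-1 < b < 0` and every `d ≥ 8`.
4. For `|b| > 1` and every `p` the basin of every compact set has measure zero.
5. For `|b| = 1` and every `p` a compact invariant set attracts only a set of measure zero outside
   itself. -/
theorem result :
    (∀ b : ℝ, b ≠ 0 → |b| ≠ 1 →
      ((∃ p : Polynomial ℝ, 2 ≤ p.natDegree ∧ ∃ Λ, IsWildAttractor (henon p b) Λ) ↔ |b| < 1)) ∧
    (∀ b : ℝ, 0 < b → b < 1 → ∀ d : ℕ, 3 ≤ d →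
      ∃ p : Polynomial ℝ, p.natDegree = d ∧ HasNestedWildAttractors p b) ∧
    (∀ b : ℝ, -1 < b → b < 0 → ∀ d : ℕ, 8 ≤ d →
      ∃ p : Polynomial ℝ, p.natDegree = d ∧ HasNestedWildAttractors p b) ∧
    (∀ b : ℝ, 1 < |b| → ∀ (p : Polynomial ℝ) (Λ : Set (ℝ × ℝ)), IsCompact Λ →
      volume (basin (henon p b) Λ) = 0) ∧
    (∀ b : ℝ, |b| = 1 → ∀ (p : Polynomial ℝ) (Λ : Set (ℝ × ℝ)), IsCompact Λ →
      henon p b '' Λ = Λ → volume (basin (henon p b) Λ \ Λ) = 0) := by
  have hpos : ∀ b : ℝ, 0 < b → b < 1 → ∀ d : ℕ, 3 ≤ d →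
      ∃ p : Polynomial ℝ, p.natDegree = d ∧ HasNestedWildAttractors p b := by
    intro b h0 h1 d hd
    obtain ⟨p, Λ, U, hp, h, hU, hUn⟩ := positive_half b h0 h1 d hd
    exact ⟨p, hp, Λ, U, hU, hUn, h⟩
  have hneg : ∀ b : ℝ, -1 < b → b < 0 → ∀ d : ℕ, 8 ≤ d →
      ∃ p : Polynomial ℝ, p.natDegree = d ∧ HasNestedWildAttractors p b := by
    intro b h0 h1 d hd
    obtain ⟨p, Λ, U, hp, h, hU, hUn⟩ := Neg.negative_half b h1 h0 d hd
    exact ⟨p, hp, Λ, U, hU, hUn, h⟩
  have hbig : ∀ b : ℝ, 1 < |b| → ∀ (p : Polynomial ℝ) (Λ : Set (ℝ × ℝ)), IsCompact Λ →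
      volume (basin (henon p b) Λ) = 0 := fun b hb p Λ hΛ => basin_null p b hb hΛ
  refine ⟨?_, hpos, hneg, hbig, fun b hb p Λ hΛ hinv => basin_diff_null p b hb hΛ hinv⟩
  intro b hb0 hb1
  constructor
  · rintro ⟨p, _, Λ, hΛ⟩
    by_contra hcon
    have h1 : 1 < |b| := lt_of_le_of_ne (not_lt.1 hcon) (Ne.symm hb1)
    exact hΛ.2.2.1.ne' (hbig b h1 p Λ hΛ.1.2.1)
  · intro h
    rw [abs_lt] at h
    rcases lt_or_gt_of_ne hb0 with hb | hb
    · obtain ⟨p, hp, Λ, U, _, _, hΛ⟩ := hneg b h.1 hb 8 le_rfl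
      exact ⟨p, by omega, Λ 0, (hΛ 0).1⟩
    · obtain ⟨p, hp, Λ, U, _, _, hΛ⟩ := hpos b hb h.2 3 le_rfl
      exact ⟨p, by omega, Λ 0, (hΛ 0).1⟩

end Pool.Agent.Results.MP_3dbc4a_an.AllJacobians
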